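import Pool.Agent.Helper92.TN.GoalsD

/-!
# Project TN (MP_a41896_nt), packet DGR: the normalised degree and the field degrees
-/

set_option autoImplicit false

open IntermediateField

namespace Pool.Agent.Helper46.TN.DGR

open Pool.Agent.Helper92.TN

/-- the degree of a simple extension, algebraic or not -/
lemma finrank_adjoin {K L : Type} [Field K] [Field L] [Algebra K L] (x : L) :
    Module.finrank K (adjoin K {x}) = (minpoly K x).natDegree := by
  by_cases h : IsIntegral K x
  · exact adjoin.finrank h
  · rw [minpoly.eq_zero h, Polynomial.natDegree_zero]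
    apply Module.finrank_of_infinite_dimensional
    intro hfin
    have h1 : IsIntegral K (⟨x, mem_adjoin_simple_self K x⟩ : adjoin K {x}) :=
      Algebra.IsIntegral.isIntegral _
    exact h (h1.map (adjoin K {x}).val)

lemma part1 (k F : Type) [Field k] [Field F] [Algebra k F] (t f : F)
    [FiniteDimensional (adjoin k {t}) F] :
    (Module.finrank (adjoin k {f}) F : ℝ) =
      dg k t f * Module.finrank (adjoin k {t}) F := by
  have h1 := Module.finrank_mul_finrank (adjoin k {f}) (adjoin (adjoin k {f}) {t}) F
  have h2 := Module.finrank_mul_finrank (adjoin k {t}) (adjoin (adjoin k {t}) {f}) F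
  have h3 : Module.finrank (adjoin (adjoin k {f}) {t}) F =
      Module.finrank (adjoin (adjoin k {t}) {f}) F := by
    have e1 : Module.finrank (adjoin (adjoin k {f}) {t}) F =
      Module.finrank ((adjoin (adjoin k {f}) {t}).restrictScalars k) F := rfl
    have e2 : Module.finrank (adjoin (adjoin k {t}) {f}) F =
      Module.finrank ((adjoin (adjoin k {t}) {f}).restrictScalars k) F := rfl
    rw [e1, e2, adjoin_simple_comm]
  rw [finrank_adjoin] at h1 h2
  have hpos : 0 < Module.finrank (adjoin k {t}) F := Module.finrank_pos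
  have hd2 : (minpoly (adjoin k {t}) f).natDegree ≠ 0 := by
    intro h
    rw [h, zero_mul] at h2
    omega
  unfold dg
  rw [← h1, ← h2, h3]
  push_cast
  field_simp

lemma minpoly_map {K K' M M' : Type} [Field K] [Field K'] [Field M] [Field M'] [Algebra K M]
    [Algebra K' M'] (e : K ≃+* K') (φ : M →+* M')
    (h : ∀ a, φ (algebraMap K M a) = algebraMap K' M' (e a)) (x : M) :
    (minpoly K' (φ x)).natDegree = (minpoly K x).natDegree := by
  have hcomp : φ.comp (algebraMap K M) = (algebraMap K' M').comp e.toRingHom := by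
    ext a
    exact h a
  have hroot : ∀ p : Polynomial K, Polynomial.aeval (φ x) (p.map e.toRingHom) =
      φ (Polynomial.aeval x p) := by
    intro p
    rw [Polynomial.aeval_def, Polynomial.eval₂_map, ← hcomp, Polynomial.aeval_def,
      Polynomial.hom_eval₂]
  by_cases hx : IsIntegral K x
  · have h1 : Irreducible ((minpoly K x).map e.toRingHom) :=
      (MulEquiv.irreducible_iff (Polynomial.mapEquiv e).toMulEquiv).2 (minpoly.irreducible hx)
    have h2 : ((minpoly K x).map e.toRingHom).Monic := (minpoly.monic hx).map _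
    have h3 : Polynomial.aeval (φ x) ((minpoly K x).map e.toRingHom) = 0 := by
      rw [hroot, minpoly.aeval, map_zero]
    rw [← minpoly.eq_of_irreducible_of_monic h1 h3 h2, Polynomial.natDegree_map]
  · have hx' : ¬ IsIntegral K' (φ x) := by
      rintro ⟨p, hp, hpe⟩
      apply hx
      refine ⟨p.map e.symm.toRingHom, hp.map _, ?_⟩
      have h1 := hroot (p.map e.symm.toRingHom)
      have h2 : (p.map e.symm.toRingHom).map e.toRingHom = p := by
        rw [Polynomial.map_map]
        have : e.toRingHom.comp e.symm.toRingHom = RingHom.id K' := by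
          ext a
          simp
        rw [this, Polynomial.map_id]
      rw [h2] at h1
      have h3 : Polynomial.aeval (φ x) p = 0 := hpe
      rw [h3] at h1
      have h4 : Polynomial.aeval x (p.map e.symm.toRingHom) = 0 :=
        φ.injective (by rw [map_zero]; exact h1.symm)
      exact h4
    rw [minpoly.eq_zero hx, minpoly.eq_zero hx', Polynomial.natDegree_zero,
      Polynomial.natDegree_zero]

lemma part2 (k M k' M' : Type) [Field k] [Field M] [Algebra k M] [Field k'] [Field M']
    [Algebra k' M'] (ψ : k ≃+* k') (φ : M →+* M')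
    (h : ∀ c, φ (algebraMap k M c) = algebraMap k' M' (ψ c)) (f x : M) :
    (minpoly (adjoin k' {φ f}) (φ x)).natDegree = (minpoly (adjoin k {f}) x).natDegree := by
  have h1 : ∀ a ∈ adjoin k {f}, φ a ∈ adjoin k' {φ f} := by
    intro a ha
    induction ha using adjoin_induction with
    | mem x hx =>
      rw [Set.mem_singleton_iff] at hx
      rw [hx]
      exact mem_adjoin_simple_self _ _
    | algebraMap c => rw [h]; exact IntermediateField.algebraMap_mem _ _
    | add x y _ _ hx hy => rw [map_add]; exact add_mem hx hy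
    | inv x _ hx => rw [map_inv₀]; exact inv_mem hx
    | mul x y _ _ hx hy => rw [map_mul]; exact mul_mem hx hy
  have h2 : ∀ b ∈ adjoin k' {φ f}, ∃ a ∈ adjoin k {f}, φ a = b := by
    intro b hb
    induction hb using adjoin_induction with
    | mem x hx =>
      rw [Set.mem_singleton_iff] at hx
      exact ⟨f, mem_adjoin_simple_self _ _, hx.symm⟩
    | algebraMap c =>
      refine ⟨algebraMap k M (ψ.symm c), IntermediateField.algebraMap_mem _ _, ?_⟩
      rw [h, RingEquiv.apply_symm_apply]
    | add x y _ _ hx hy =>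
      obtain ⟨a, ha, rfl⟩ := hx
      obtain ⟨b, hb, rfl⟩ := hy
      exact ⟨a + b, add_mem ha hb, map_add _ _ _⟩
    | inv x _ hx =>
      obtain ⟨a, ha, rfl⟩ := hx
      exact ⟨a⁻¹, inv_mem ha, map_inv₀ _ _⟩
    | mul x y _ _ hx hy =>
      obtain ⟨a, ha, rfl⟩ := hx
      obtain ⟨b, hb, rfl⟩ := hy
      exact ⟨a * b, mul_mem ha hb, map_mul _ _ _⟩
  let g : adjoin k {f} →+* adjoin k' {φ f} :=
    RingHom.codRestrict (φ.comp (algebraMap (adjoin k {f}) M)) (adjoin k' {φ f})
      (fun a => h1 a.1 a.2)
  have hg : Function.Bijective g := by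
    refine ⟨g.injective, fun b => ?_⟩
    obtain ⟨a, ha, hab⟩ := h2 b.1 b.2
    exact ⟨⟨a, ha⟩, Subtype.ext hab⟩
  exact minpoly_map (RingEquiv.ofBijective g hg) φ (fun a => rfl) x

/-- **DGR** -/
theorem t : Pool.Agent.Helper92.TN.DGR := by
  refine ⟨fun k F _ _ _ _ t f _ hfin => part1 k F t f, ?_⟩
  intro k M k' M' _ _ _ _ _ _ ψ φ h t f
  unfold dg
  rw [part2 k M k' M' ψ φ h f t, part2 k M k' M' ψ φ h t f]

end Pool.Agent.Helper46.TN.DGR
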